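import Pool.Agent.Lib.MP_b414a3_an.PN.Defs

/-! Counting functions with a given kernel. -/

set_option autoImplicit false

namespace Pool.Agent.Lib.MP_b414a3_an.PN

open Finset Filter

private theorem Count_ker {m k k' : ℕ} {f : Fin m → Fin k} {g : Fin m → Fin k'} (h : ker f = ker g)
    (a b : Fin m) : f a = f b ↔ g a = g b := by
  have h1 : decide (f a = f b) = decide (g a = g b) := congrFun (congrFun h a) b
  exact decide_eq_decide.1 h1

theorem card_ker {m k₀ : ℕ} (f₀ : Fin m → Fin k₀) (k : ℕ) :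
    (univ.filter fun f : Fin m → Fin k => ker f = ker f₀).card = k.descFactorial (univ.image f₀).card := by
  classical
  have h1 : (univ : Finset ({y // y ∈ univ.image f₀} ↪ Fin k)).card =
      (univ.filter fun f : Fin m → Fin k => ker f = ker f₀).card := by
    refine Finset.card_bij (fun ψ _ => fun a => ψ ⟨f₀ a, mem_image_of_mem _ (mem_univ _)⟩) ?_ ?_ ?_
    · intro ψ _
      rw [mem_filter]
      refine ⟨mem_univ _, ?_⟩
      funext a b
      unfold ker
      rw [decide_eq_decide, ψ.injective.eq_iff, Subtype.mk.injEq]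
    · intro ψ _ φ _ h
      ext ⟨y, hy⟩
      obtain ⟨a, _, ha⟩ := mem_image.1 hy
      subst ha
      exact congrArg Fin.val (congrFun h a)
    · intro f hf
      rw [mem_filter] at hf
      have hk := Count_ker hf.2
      have hc : ∀ y : {y // y ∈ univ.image f₀}, ∃ a, f₀ a = y := by
        rintro ⟨y, hy⟩
        obtain ⟨a, _, ha⟩ := mem_image.1 hy
        exact ⟨a, ha⟩
      choose c hcc using hc
      refine ⟨⟨fun y => f (c y), ?_⟩, mem_univ _, ?_⟩
      · intro y z hyz
        have h2 : f₀ (c y) = f₀ (c z) := (hk _ _).1 hyz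
        rw [hcc, hcc] at h2
        exact Subtype.ext h2
      · funext a
        change f (c ⟨f₀ a, _⟩) = f a
        rw [hk]
        exact hcc _
  rw [← h1, Finset.card_univ, Fintype.card_embedding_eq, Fintype.card_coe, Fintype.card_fin]

theorem card_even {m k : ℕ} (f : Fin m → Fin k) (h : EvenF f) : 2 * (univ.image f).card ≤ m := by
  classical
  have h1 : (univ : Finset (Fin m)).card = ∑ b ∈ univ.image f, (univ.filter fun a => f a = b).card :=
    Finset.card_eq_sum_card_image f univ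
  rw [Finset.card_univ, Fintype.card_fin] at h1
  have h0 : 2 * (univ.image f).card = ∑ _b ∈ univ.image f, 2 := by
    rw [Finset.sum_const, smul_eq_mul, mul_comm]
  refine (h0.trans_le (sum_le_sum fun b hb => ?_)).trans h1.ge
  obtain ⟨a, _, ha⟩ := mem_image.1 hb
  have h2 := h b
  have h3 : 0 < (univ.filter fun a => f a = b).card :=
    card_pos.2 ⟨a, mem_filter.2 ⟨mem_univ _, ha⟩⟩
  obtain ⟨t, ht⟩ := h2
  omega

theorem even_of_ker {m k k' : ℕ} (f : Fin m → Fin k) (g : Fin m → Fin k') (h : ker f = ker g) (hf : EvenF f) : EvenF g := by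
  classical
  intro i
  by_cases hi : ∃ a, g a = i
  · obtain ⟨a, rfl⟩ := hi
    have h1 : (univ.filter fun j => g j = g a) = univ.filter fun j => f j = f a := by
      ext j
      simp only [mem_filter, mem_univ, true_and]
      exact (Count_ker h j a).symm
    rw [h1]
    exact hf (f a)
  · have h1 : (univ.filter fun j => g j = i) = ∅ := by
      rw [filter_eq_empty_iff]
      intro j _ hj
      exact hi ⟨j, hj⟩
    rw [h1, card_empty]
    exact Even.zero

private theorem Count_one (r : ℕ) :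
    Tendsto (fun k : ℕ => (k.descFactorial r : ℝ) / (k : ℝ) ^ r) atTop (nhds 1) := by
  induction r with
  | zero => simp
  | succ r ih =>
    have h1 : Tendsto (fun k : ℕ => 1 - (r : ℝ) / (k : ℝ)) atTop (nhds 1) := by
      have := (tendsto_const_div_atTop_nhds_zero_nat (r : ℝ)).const_sub 1
      simpa using this
    have h2 := h1.mul ih
    rw [one_mul] at h2
    refine h2.congr' ?_
    filter_upwards [eventually_ge_atTop (max r 1)] with k hk
    have hr : r ≤ k := le_trans (le_max_left _ _) hk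
    have hk1 : 1 ≤ k := le_trans (le_max_right _ _) hk
    have hk0 : (k : ℝ) ≠ 0 := by
      have : (1 : ℝ) ≤ k := by exact_mod_cast hk1
      linarith
    rw [Nat.descFactorial_succ, Nat.cast_mul, Nat.cast_sub hr, pow_succ]
    field_simp

theorem tendsto_desc (r m : ℕ) (h : 2 * r ≤ m) :
    ∃ L : ℝ, Tendsto (fun k : ℕ => (k.descFactorial r : ℝ) * (√(k : ℝ))⁻¹ ^ m) atTop (nhds L) := by
  obtain ⟨j, rfl⟩ : ∃ j, m = 2 * r + j := ⟨m - 2 * r, by omega⟩
  have hB : ∃ L : ℝ, Tendsto (fun k : ℕ => (√(k : ℝ))⁻¹ ^ j) atTop (nhds L) := by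
    have h0 : Tendsto (fun k : ℕ => (√(k : ℝ))⁻¹) atTop (nhds 0) :=
      (Real.tendsto_sqrt_atTop.comp tendsto_natCast_atTop_atTop).inv_tendsto_atTop
    exact ⟨_, h0.pow j⟩
  obtain ⟨L, hL⟩ := hB
  refine ⟨1 * L, ((Count_one r).mul hL).congr' ?_⟩
  filter_upwards [eventually_ge_atTop 1] with k hk
  have hk0 : (0 : ℝ) < k := by
    have : (1 : ℝ) ≤ k := by exact_mod_cast hk
    linarith
  have h1 : (√(k : ℝ))⁻¹ ^ (2 * r) = ((k : ℝ) ^ r)⁻¹ := by
    rw [pow_mul, inv_pow, Real.sq_sqrt hk0.le, inv_pow]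
  rw [pow_add, h1, div_eq_mul_inv, mul_assoc]

open Classical in
theorem tendsto_count {m : ℕ} (κ : Fin m → Fin m → Bool) :
    ∃ L : ℝ, Tendsto (fun k : ℕ => ((univ.filter fun f : Fin m → Fin k => EvenF f ∧ ker f = κ).card : ℝ) *
      (√(k : ℝ))⁻¹ ^ m) atTop (nhds L) := by
  by_cases h : ∃ (k₀ : ℕ) (f₀ : Fin m → Fin k₀), EvenF f₀ ∧ ker f₀ = κ
  · obtain ⟨k₀, f₀, h1, rfl⟩ := h
    obtain ⟨L, hL⟩ := tendsto_desc (univ.image f₀).card m (card_even f₀ h1)
    refine ⟨L, hL.congr fun k => ?_⟩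
    rw [← card_ker f₀ k]
    congr 2
    refine congrArg _ ?_
    ext f
    simp only [mem_filter, mem_univ, true_and]
    exact ⟨fun h2 => ⟨even_of_ker f₀ f h2.symm h1, h2⟩, fun h2 => h2.2⟩
  · refine ⟨0, tendsto_const_nhds.congr fun k => ?_⟩
    have h1 : (univ.filter fun f : Fin m → Fin k => EvenF f ∧ ker f = κ) = ∅ := by
      rw [filter_eq_empty_iff]
      intro f _ hf
      exact h ⟨k, f, hf⟩
    rw [h1, card_empty, Nat.cast_zero, zero_mul]

end Pool.Agent.Lib.MP_b414a3_an.PN
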