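import Pool.Agent.Lib.MP_b414a3_an.PN.Defs

set_option autoImplicit false

namespace Pool.Agent.Lib.MP_b414a3_an.PN

open Finset

variable {H : Type*} [NormedAddCommGroup H] [InnerProductSpace ℝ H]

theorem expand (e : ℕ → H) {m n k : ℕ} (hk : k ≤ n) (σ : Equiv.Perm (Fin n)) (s : Fin n → Bool)
    (B : ContinuousMultilinearMap ℝ (fun _ : Fin m => H) ℝ) :
    B (fun _ => vec e hk σ s) = (√(k : ℝ))⁻¹ ^ m *
      ∑ f : Fin m → Fin k, (∏ j, sg (s (Fin.castLE hk (f j)))) * B fun j => e (σ (Fin.castLE hk (f j))) := by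
  unfold vec
  rw [B.map_smul_univ (fun _ : Fin m => (√(k : ℝ))⁻¹)
    (fun _ => ∑ i : Fin k, sg (s (Fin.castLE hk i)) • e (σ (Fin.castLE hk i)))]
  rw [Finset.prod_const, Finset.card_univ, Fintype.card_fin, smul_eq_mul]
  rw [B.map_sum (fun (_ : Fin m) (i : Fin k) => sg (s (Fin.castLE hk i)) • e (σ (Fin.castLE hk i)))]
  refine congrArg _ (Finset.sum_congr rfl fun f _ => ?_)
  exact B.map_smul_univ (fun j : Fin m => sg (s (Fin.castLE hk (f j))))
    (fun j => e (σ (Fin.castLE hk (f j))))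

end Pool.Agent.Lib.MP_b414a3_an.PN
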