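import Pool.Agent.Lib.MP_b414a3_an.PN.Defs

set_option autoImplicit false

namespace Pool.Agent.Lib.MP_b414a3_an.PN

open Finset

theorem exists_perm_of_ker {m n : ℕ} (f g : Fin m → Fin n) (h : ∀ a b, f a = f b ↔ g a = g b) :
    ∃ τ : Equiv.Perm (Fin n), ∀ j, τ (f j) = g j := by
  classical
  let φ : {x // ∃ j, f j = x} → {y // ∃ j, g j = y} := fun x => ⟨g x.2.choose, x.2.choose, rfl⟩
  have hφ : ∀ j (hj : ∃ i, f i = f j), ((φ ⟨f j, hj⟩ : {y // ∃ j, g j = y}) : Fin n) = g j := by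
    intro j hj
    exact (h _ _).1 hj.choose_spec
  have hinj : Function.Injective φ := by
    rintro ⟨_, a, rfl⟩ ⟨_, b, rfl⟩ hab
    have h1 := congrArg Subtype.val hab
    rw [hφ, hφ] at h1
    exact Subtype.ext ((h _ _).2 h1)
  have hsurj : Function.Surjective φ := by
    rintro ⟨_, b, rfl⟩
    exact ⟨⟨f b, b, rfl⟩, Subtype.ext (hφ b ⟨b, rfl⟩)⟩
  refine ⟨(Equiv.ofBijective φ ⟨hinj, hsurj⟩).extendSubtype, fun j => ?_⟩
  rw [Equiv.extendSubtype_apply_of_mem (Equiv.ofBijective φ ⟨hinj, hsurj⟩) (f j) ⟨j, rfl⟩]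
  exact hφ j ⟨j, rfl⟩

theorem sum_perm {m n : ℕ} (f g : Fin m → Fin n) (h : ∀ a b, f a = f b ↔ g a = g b) (F : (Fin m → Fin n) → ℝ) :
    ∑ σ : Equiv.Perm (Fin n), F (fun j => σ (f j)) = ∑ σ : Equiv.Perm (Fin n), F (fun j => σ (g j)) := by
  obtain ⟨τ, hτ⟩ := exists_perm_of_ker f g h
  rw [← Equiv.sum_comp (Equiv.mulRight τ) (fun σ : Equiv.Perm (Fin n) => F (fun j => σ (f j)))]
  refine Finset.sum_congr rfl fun σ _ => ?_
  congr 1
  funext j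
  show (σ * τ) (f j) = σ (g j)
  rw [Equiv.Perm.mul_apply, hτ]

end Pool.Agent.Lib.MP_b414a3_an.PN
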