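import Pool.Agent.Lib.MP_b414a3_an.PN.Sign
import Pool.Agent.Lib.MP_b414a3_an.PN.Expand
import Pool.Agent.Lib.MP_b414a3_an.PN.Inv
import Pool.Agent.Lib.MP_b414a3_an.PN.Count

/-!
MP_b414a3_an, board PN: the averages of a polynomial converge.
-/

set_option autoImplicit false

namespace Pool.Agent.Lib.MP_b414a3_an.PN

open Finset Filter

variable {H : Type*} [NormedAddCommGroup H] [InnerProductSpace ℝ H]

/-- the average of `F` over the signed permutations of the vector -/
noncomputable def avg (e : ℕ → H) {n k : ℕ} (hk : k ≤ n) (F : H → ℝ) : ℝ :=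
  (∑ p : Equiv.Perm (Fin n) × (Fin n → Bool), F (vec e hk p.1 p.2)) / ((n.factorial : ℝ) * 2 ^ n)

theorem card_pairs (n : ℕ) : ((univ : Finset (Equiv.Perm (Fin n) × (Fin n → Bool))).card : ℝ) =
    (n.factorial : ℝ) * 2 ^ n := by
  rw [card_univ, Fintype.card_prod, Fintype.card_perm, Fintype.card_fin, Fintype.card_fun, Fintype.card_bool,
    Fintype.card_fin]
  push_cast
  rfl

theorem pairs_pos (n : ℕ) : (0 : ℝ) < (n.factorial : ℝ) * 2 ^ n := by positivity

theorem exists_le_avg (e : ℕ → H) {n k : ℕ} (hk : k ≤ n) (F : H → ℝ) :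
    ∃ σ s, F (vec e hk σ s) ≤ avg e hk F := by
  obtain ⟨p, -, hp⟩ := Finset.exists_le_of_sum_le (s := (univ : Finset (Equiv.Perm (Fin n) × (Fin n → Bool))))
    (f := fun p => F (vec e hk p.1 p.2)) (g := fun _ => avg e hk F) univ_nonempty (by
      rw [sum_const, nsmul_eq_mul, card_pairs, avg, mul_div_cancel₀ _ (pairs_pos n).ne'])
  exact ⟨p.1, p.2, hp⟩

theorem exists_ge_avg (e : ℕ → H) {n k : ℕ} (hk : k ≤ n) (F : H → ℝ) :
    ∃ σ s, avg e hk F ≤ F (vec e hk σ s) := by
  obtain ⟨p, -, hp⟩ := Finset.exists_le_of_sum_le (s := (univ : Finset (Equiv.Perm (Fin n) × (Fin n → Bool))))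
    (g := fun p => F (vec e hk p.1 p.2)) (f := fun _ => avg e hk F) univ_nonempty (by
      rw [sum_const, nsmul_eq_mul, card_pairs, avg, mul_div_cancel₀ _ (pairs_pos n).ne'])
  exact ⟨p.1, p.2, hp⟩

theorem avg_sum (e : ℕ → H) {n k : ℕ} (hk : k ≤ n) (d : ℕ) (F : ℕ → H → ℝ) :
    avg e hk (fun x => ∑ m ∈ range d, F m x) = ∑ m ∈ range d, avg e hk (F m) := by
  unfold avg
  rw [sum_comm, sum_div]

/-- the sum over the permutations -/
noncomputable def TT (e : ℕ → H) {m n : ℕ} (B : ContinuousMultilinearMap ℝ (fun _ : Fin m => H) ℝ)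
    (g : Fin m → Fin n) : ℝ := ∑ σ : Equiv.Perm (Fin n), B fun j => e (σ (g j))

open Classical in
/-- the normalised sum for the kernel `κ` -/
noncomputable def bb (e : ℕ → H) {m : ℕ} (n : ℕ) (B : ContinuousMultilinearMap ℝ (fun _ : Fin m => H) ℝ)
    (κ : Fin m → Fin m → Bool) : ℝ :=
  if h : ∃ g : Fin m → Fin n, ker g = κ then TT e B h.choose / n.factorial else 0

theorem TT_ker (e : ℕ → H) {m n : ℕ} (B : ContinuousMultilinearMap ℝ (fun _ : Fin m => H) ℝ)
    (f g : Fin m → Fin n) (h : ker f = ker g) : TT e B f = TT e B g := by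
  refine sum_perm f g (fun a b => ?_) (fun u => B fun j => e (u j))
  have h1 := congrFun (congrFun h a) b
  simp only [ker, decide_eq_decide] at h1
  exact h1

theorem TT_eq (e : ℕ → H) {m n : ℕ} (B : ContinuousMultilinearMap ℝ (fun _ : Fin m => H) ℝ)
    (g : Fin m → Fin n) : TT e B g = n.factorial * bb e n B (ker g) := by
  have h : ∃ g' : Fin m → Fin n, ker g' = ker g := ⟨g, rfl⟩
  have hn : (n.factorial : ℝ) ≠ 0 := by positivity
  rw [bb, dif_pos h, mul_div_cancel₀ _ hn]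
  exact TT_ker e B _ _ h.choose_spec.symm

theorem TT_le {e : ℕ → H} (he : Orthonormal ℝ e) {m n : ℕ} (B : ContinuousMultilinearMap ℝ (fun _ : Fin m => H) ℝ)
    (g : Fin m → Fin n) : |TT e B g| ≤ n.factorial * ‖B‖ := by
  unfold TT
  refine (abs_sum_le_sum_abs _ _).trans ?_
  have h1 : ∀ σ ∈ (univ : Finset (Equiv.Perm (Fin n))), |B fun j => e (σ (g j))| ≤ ‖B‖ := by
    intro σ _
    have h2 := B.le_opNorm fun j => e (σ (g j))
    rw [Real.norm_eq_abs] at h2
    refine h2.trans (le_of_eq ?_)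
    simp [he.1]
  refine (sum_le_card_nsmul _ _ _ h1).trans (le_of_eq ?_)
  rw [card_univ, Fintype.card_perm, Fintype.card_fin, nsmul_eq_mul]

theorem bb_le {e : ℕ → H} (he : Orthonormal ℝ e) {m : ℕ} (n : ℕ)
    (B : ContinuousMultilinearMap ℝ (fun _ : Fin m => H) ℝ) (κ : Fin m → Fin m → Bool) : |bb e n B κ| ≤ ‖B‖ := by
  unfold bb
  split_ifs with h
  · have hn : (0 : ℝ) < n.factorial := by positivity
    rw [abs_div, abs_of_pos hn, div_le_iff₀ hn, mul_comm]
    exact TT_le he B _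
  · rw [abs_zero]
    exact norm_nonneg B

open Classical in
/-- the normalised number of functions with all fibres even and kernel `κ` -/
noncomputable def cc {m : ℕ} (κ : Fin m → Fin m → Bool) (k : ℕ) : ℝ :=
  ((univ.filter fun f : Fin m → Fin k => EvenF f ∧ ker f = κ).card : ℝ) * (√(k : ℝ))⁻¹ ^ m

theorem ker_cast {m n k : ℕ} (hk : k ≤ n) (f : Fin m → Fin k) : ker (fun j => Fin.castLE hk (f j)) = ker f := by
  funext a b
  simp only [ker, Fin.castLE_inj]

theorem avg_eq (e : ℕ → H) {m n k : ℕ} (hk : k ≤ n) (B : ContinuousMultilinearMap ℝ (fun _ : Fin m => H) ℝ) :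
    avg e hk (fun x => B fun _ => x) = ∑ κ : Fin m → Fin m → Bool, cc κ k * bb e n B κ := by
  classical
  unfold avg
  have hn : (n.factorial : ℝ) ≠ 0 := by positivity
  have h2 : (2 : ℝ) ^ n ≠ 0 := by positivity
  have h1 : ∑ p : Equiv.Perm (Fin n) × (Fin n → Bool), B (fun _ => vec e hk p.1 p.2) =
      (√(k : ℝ))⁻¹ ^ m * ∑ f : Fin m → Fin k, (if EvenF f then (2 : ℝ) ^ n else 0) *
        TT e B fun j => Fin.castLE hk (f j) := by
    rw [Fintype.sum_prod_type]
    simp only [expand]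
    simp only [← mul_sum]
    congr 1
    have h3 : ∀ σ : Equiv.Perm (Fin n), ∑ s : Fin n → Bool, ∑ f : Fin m → Fin k,
        (∏ j, sg (s (Fin.castLE hk (f j)))) * B (fun j => e (σ (Fin.castLE hk (f j)))) =
        ∑ f : Fin m → Fin k, (if EvenF f then (2 : ℝ) ^ n else 0) * B (fun j => e (σ (Fin.castLE hk (f j)))) := by
      intro σ
      rw [sum_comm]
      refine sum_congr rfl fun f _ => ?_
      rw [← sum_mul, sum_sign fun j => Fin.castLE hk (f j)]
      congr 1
      have h4 : EvenF (fun j => Fin.castLE hk (f j)) ↔ EvenF f :=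
        ⟨even_of_ker _ _ (ker_cast hk f), even_of_ker _ _ (ker_cast hk f).symm⟩
      by_cases h5 : EvenF f
      · rw [if_pos h5, if_pos (h4.2 h5)]
      · rw [if_neg h5, if_neg (fun h6 => h5 (h4.1 h6))]
    simp only [h3]
    rw [sum_comm]
    refine sum_congr rfl fun f _ => ?_
    rw [← mul_sum]
    rfl
  rw [h1]
  have h3 : ∑ f : Fin m → Fin k, (if EvenF f then (2 : ℝ) ^ n else 0) * TT e B (fun j => Fin.castLE hk (f j)) =
      (n.factorial : ℝ) * 2 ^ n * ∑ κ : Fin m → Fin m → Bool,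
        ((univ.filter fun f : Fin m → Fin k => EvenF f ∧ ker f = κ).card : ℝ) * bb e n B κ := by
    have h4 : ∀ f : Fin m → Fin k, (if EvenF f then (2 : ℝ) ^ n else 0) * TT e B (fun j => Fin.castLE hk (f j)) =
        (n.factorial : ℝ) * 2 ^ n * if EvenF f then bb e n B (ker f) else 0 := by
      intro f
      rw [TT_eq, ker_cast]
      split_ifs
      · ring
      · ring
    rw [sum_congr rfl fun f _ => h4 f, ← mul_sum, ← sum_filter]
    congr 1
    rw [← sum_fiberwise' (univ.filter fun f : Fin m → Fin k => EvenF f) ker (fun κ => bb e n B κ)]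
    refine sum_congr rfl fun κ _ => ?_
    rw [sum_const, nsmul_eq_mul, filter_filter]
  rw [h3]
  unfold cc
  rw [mul_div_assoc, mul_div_cancel_left₀ _ (mul_ne_zero hn h2), mul_sum]
  refine sum_congr rfl fun κ _ => ?_
  ring

theorem avg_close {e : ℕ → H} (he : Orthonormal ℝ e) {m : ℕ} (B : ContinuousMultilinearMap ℝ (fun _ : Fin m => H) ℝ)
    {δ : ℝ} (hδ : 0 < δ) : ∃ K : ℕ, ∀ (n k k' : ℕ) (hk : k ≤ n) (hk' : k' ≤ n), K ≤ k → K ≤ k' →
      |avg e hk (fun x => B fun _ => x) - avg e hk' (fun x => B fun _ => x)| ≤ δ := by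
  choose L hL using fun κ : Fin m → Fin m → Bool => tendsto_count κ
  have h1 : Tendsto (fun k : ℕ => ∑ κ : Fin m → Fin m → Bool, |cc κ k - L κ|) atTop (nhds 0) := by
    have h2 : Tendsto (fun k : ℕ => ∑ κ : Fin m → Fin m → Bool, |cc κ k - L κ|) atTop
        (nhds (∑ _κ : Fin m → Fin m → Bool, 0)) := by
      refine tendsto_finsetSum _ fun κ _ => ?_
      have h3 := ((hL κ).sub_const (L κ)).abs
      rw [sub_self, abs_zero] at h3
      exact h3
    simpa using h2
  have hB : 0 < 2 * (‖B‖ + 1) := by positivity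
  obtain ⟨K, hK⟩ := eventually_atTop.1 (h1.eventually (gt_mem_nhds (div_pos hδ hB)))
  refine ⟨K, fun n k k' hk hk' h2 h3 => ?_⟩
  rw [avg_eq, avg_eq, ← sum_sub_distrib]
  have h4 := hK k h2
  have h5 := hK k' h3
  refine (abs_sum_le_sum_abs _ _).trans ?_
  have h6 : ∀ κ ∈ (univ : Finset (Fin m → Fin m → Bool)), |cc κ k * bb e n B κ - cc κ k' * bb e n B κ| ≤
      (|cc κ k - L κ| + |cc κ k' - L κ|) * (‖B‖ + 1) := by
    intro κ _
    rw [← sub_mul, abs_mul]
    refine mul_le_mul ?_ ((bb_le he n B κ).trans (by linarith)) (abs_nonneg _) (by positivity)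
    have h7 : cc κ k - cc κ k' = (cc κ k - L κ) - (cc κ k' - L κ) := by ring
    rw [h7]
    exact abs_sub _ _
  refine (sum_le_sum h6).trans ?_
  rw [← sum_mul, sum_add_distrib]
  have h8 : δ / (2 * (‖B‖ + 1)) + δ / (2 * (‖B‖ + 1)) = δ / (‖B‖ + 1) := by
    field_simp
    ring
  have h9 : (∑ κ : Fin m → Fin m → Bool, |cc κ k - L κ| + ∑ κ : Fin m → Fin m → Bool, |cc κ k' - L κ|) ≤
      δ / (‖B‖ + 1) := by linarith
  calc _ ≤ δ / (‖B‖ + 1) * (‖B‖ + 1) := mul_le_mul_of_nonneg_right h9 (by positivity)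
    _ = δ := div_mul_cancel₀ _ (by positivity)

end Pool.Agent.Lib.MP_b414a3_an.PN
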