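import Mathlib

/-! Power series in one real variable with uniformly bounded coefficients. -/

set_option autoImplicit false

namespace Pool.Agent.Lib.MP_b414a3_an.PN

open Filter

private lemma coef_le {x y C r : ℝ} {m : ℕ} (hr : 0 < r) (h : |x| * r ^ m ≤ C) :
    |x * y ^ m| ≤ C * (|y| / r) ^ m := by
  rw [abs_mul, abs_pow, div_pow, mul_div_assoc', le_div_iff₀ (by positivity)]
  have h1 : 0 ≤ |y| ^ m := by positivity
  nlinarith [mul_le_mul_of_nonneg_right h h1]

theorem small_zero {a : ℕ → ℕ → ℝ} {F : ℕ → ℝ → ℝ} {C r ε : ℝ} (hr : 0 < r) (hε : 0 < ε)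
    (ha : ∀ i m, |a i m| * r ^ m ≤ C) (hF : ∀ i s, 0 < |s| → |s| < ε → HasSum (fun m => a i m * s ^ m) (F i s))
    (h0 : ∀ s, 0 < |s| → |s| < ε → Tendsto (fun i => F i s) atTop (nhds 0)) :
    Tendsto (fun i => a i 0) atTop (nhds 0) := by
  have hC : 0 ≤ C := le_trans (by positivity) (ha 0 0)
  rw [Metric.tendsto_atTop]
  intro δ hδ
  obtain ⟨s, hs0, hs1, hs2, hs3⟩ : ∃ s : ℝ, 0 < s ∧ s < ε ∧ s ≤ r / 2 ∧ 2 * C * (s / r) ≤ δ / 4 := by
    refine ⟨min (ε / 2) (min (r / 2) (δ * r / (8 * (C + 1)))), ?_, ?_, ?_, ?_⟩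
    · exact lt_min (by linarith) (lt_min (by linarith) (by positivity))
    · exact lt_of_le_of_lt (min_le_left _ _) (by linarith)
    · exact (min_le_right _ _).trans (min_le_left _ _)
    · have h1 : min (ε / 2) (min (r / 2) (δ * r / (8 * (C + 1)))) ≤ δ * r / (8 * (C + 1)) :=
        (min_le_right _ _).trans (min_le_right _ _)
      have h2 : min (ε / 2) (min (r / 2) (δ * r / (8 * (C + 1)))) / r ≤ δ / (8 * (C + 1)) := by
        rw [div_le_iff₀ hr]
        refine h1.trans (le_of_eq ?_)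
        ring
      calc 2 * C * (min (ε / 2) (min (r / 2) (δ * r / (8 * (C + 1)))) / r)
          ≤ 2 * C * (δ / (8 * (C + 1))) := mul_le_mul_of_nonneg_left h2 (by positivity)
        _ ≤ δ / 4 := by
            rw [mul_div_assoc', div_le_div_iff₀ (by positivity) (by norm_num)]
            nlinarith
  have hsabs : |s| = s := abs_of_pos hs0
  obtain ⟨N, hN⟩ := Metric.tendsto_atTop.1 (h0 s (by rw [hsabs]; exact hs0) (by rw [hsabs]; exact hs1))
    (δ / 2) (by linarith)
  refine ⟨N, fun i hi => ?_⟩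
  have h1 := hN i hi
  rw [Real.dist_eq, sub_zero] at h1 ⊢
  have h2 := (hasSum_nat_add_iff' 1).2 (hF i s (by rw [hsabs]; exact hs0) (by rw [hsabs]; exact hs1))
  have hq0 : 0 ≤ s / r := by positivity
  have hq1 : s / r ≤ 1 / 2 := by
    rw [div_le_iff₀ hr]; linarith
  have h3 : HasSum (fun m : ℕ => C * (s / r) * (s / r) ^ m) (C * (s / r) * (1 - s / r)⁻¹) :=
    (hasSum_geometric_of_lt_one hq0 (by linarith)).mul_left _
  have h4 : |F i s - a i 0| ≤ C * (s / r) * (1 - s / r)⁻¹ := by
    have h5 := h2.norm_le_of_bounded h3 (fun m => by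
      have := coef_le (y := s) hr (ha i (m + 1))
      rw [hsabs] at this
      rw [Real.norm_eq_abs]
      refine this.trans (le_of_eq ?_)
      ring)
    simpa using h5
  have h6 : (1 - s / r)⁻¹ ≤ 2 := by
    rw [inv_le_comm₀ (by linarith) (by norm_num)]
    linarith
  have h7 : C * (s / r) * (1 - s / r)⁻¹ ≤ δ / 4 := by
    refine (mul_le_mul_of_nonneg_left h6 (by positivity)).trans ?_
    linarith
  have h8 : |a i 0| ≤ |F i s| + |F i s - a i 0| := by
    have := abs_sub_abs_le_abs_sub (a i 0) (F i s)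
    rw [abs_sub_comm (a i 0)] at this
    linarith
  linarith

theorem coef_zero {a : ℕ → ℕ → ℝ} {F : ℕ → ℝ → ℝ} {C r ε : ℝ} (hr : 0 < r) (hε : 0 < ε)
    (ha : ∀ i m, |a i m| * r ^ m ≤ C) (hF : ∀ i s, 0 < |s| → |s| < ε → HasSum (fun m => a i m * s ^ m) (F i s))
    (h0 : ∀ s, 0 < |s| → |s| < ε → Tendsto (fun i => F i s) atTop (nhds 0)) (m : ℕ) :
    Tendsto (fun i => a i m) atTop (nhds 0) := by
  induction m generalizing a F C with
  | zero => exact small_zero hr hε ha hF h0
  | succ m ih =>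
    have hz := small_zero hr hε ha hF h0
    refine ih (a := fun i m => a i (m + 1)) (F := fun i s => (F i s - a i 0) / s) (C := C / r) ?_ ?_ ?_
    · intro i m
      rw [le_div_iff₀ hr]
      have := ha i (m + 1)
      rw [pow_succ] at this
      linarith
    · intro i s hs hs'
      have h2 := ((hasSum_nat_add_iff' 1).2 (hF i s hs hs')).div_const s
      have hs0 : s ≠ 0 := abs_pos.1 hs
      have e1 : (fun m => a i (m + 1) * s ^ (m + 1) / s) = fun m => a i (m + 1) * s ^ m := by
        funext m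
        rw [pow_succ, ← mul_assoc, mul_div_assoc, div_self hs0, mul_one]
      have e2 : (F i s - ∑ m ∈ Finset.range 1, a i m * s ^ m) / s = (F i s - a i 0) / s := by simp
      rw [e1, e2] at h2
      exact h2
    · intro s hs hs'
      have := ((h0 s hs hs').sub hz).div_const s
      simpa using this

theorem sum_zero {a : ℕ → ℕ → ℝ} {F : ℕ → ℝ} {C r s : ℝ} (hr : 0 < r) (hs : |s| < r)
    (ha : ∀ i m, |a i m| * r ^ m ≤ C) (hF : ∀ i, HasSum (fun m => a i m * s ^ m) (F i))
    (h0 : ∀ m, Tendsto (fun i => a i m) atTop (nhds 0)) : Tendsto F atTop (nhds 0) := by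
  have hb : Summable (fun m : ℕ => C * (|s| / r) ^ m) := by
    apply Summable.mul_left
    exact summable_geometric_of_lt_one (by positivity) ((div_lt_one hr).2 hs)
  have h1 := tendsto_tsum_of_dominated_convergence (𝓕 := atTop) (f := fun i m => a i m * s ^ m)
    (g := fun _ : ℕ => (0 : ℝ)) hb (fun m => by simpa using (h0 m).mul_const (s ^ m))
    (Eventually.of_forall fun i m => by
      rw [Real.norm_eq_abs]
      exact coef_le hr (ha i m))
  have h2 : (fun i => ∑' m, a i m * s ^ m) = F := funext fun i => (hF i).tsum_eq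
  simpa [h2] using h1

end Pool.Agent.Lib.MP_b414a3_an.PN
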