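import Pool.Agent.Lib.MP_b414a3_an.PN.Coef

/-! MP_b414a3_an, PN. Continuation of convergence to zero along an interval. -/

set_option autoImplicit false

namespace Pool.Agent.Lib.MP_b414a3_an.PN

open Filter

/-- continuation of convergence to zero along an interval -/
theorem continuation {F : ℕ → ℝ → ℝ} {C r T : ℝ} (hr : 0 < r)
    (hF : ∀ t₀, 0 ≤ t₀ → t₀ ≤ T → ∃ a : ℕ → ℕ → ℝ, (∀ i m, |a i m| * r ^ m ≤ C) ∧
      (∀ i s, |s| < r → HasSum (fun m => a i m * s ^ m) (F i (t₀ + s))) ∧
      (t₀ = 0 → ∀ m, Tendsto (fun i => a i m) atTop (nhds 0))) {t : ℝ} (ht0 : 0 ≤ t) (htT : t ≤ T) :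
    Tendsto (fun i => F i t) atTop (nhds 0) := by
  have key : ∀ j : ℕ, ∀ t : ℝ, 0 ≤ t → t ≤ T → t < ((j : ℝ) + 2) * (r / 2) →
      Tendsto (fun i => F i t) atTop (nhds 0) := by
    intro j
    induction j with
    | zero =>
      intro t h0 hT ht
      obtain ⟨a, ha, hs, hz⟩ := hF 0 le_rfl (le_trans h0 hT)
      have htr : |t| < r := by
        rw [abs_of_nonneg h0]
        push_cast at ht
        linarith
      refine sum_zero (a := a) (s := t) hr htr ha (fun i => ?_) (hz rfl)
      have := hs i t htr
      rwa [zero_add] at this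
    | succ j ih =>
      intro t h0 hT ht
      push_cast at ht
      by_cases hlt : t < ((j : ℝ) + 2) * (r / 2)
      · exact ih t h0 hT hlt
      · push Not at hlt
        have hj : (0 : ℝ) ≤ (j : ℝ) := Nat.cast_nonneg j
        have hjr : (0 : ℝ) ≤ (j : ℝ) * (r / 2) := by positivity
        have htr : r ≤ t := by nlinarith
        obtain ⟨a, ha, hs, -⟩ := hF (t - 3 * r / 4) (by linarith) (by linarith)
        have hc : ∀ m, Tendsto (fun i => a i m) atTop (nhds 0) := by
          intro m
          refine coef_zero (F := fun i s => F i (t - 3 * r / 4 + s)) (ε := r / 4) hr (by linarith) ha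
            (fun i s _ h2 => hs i s (by linarith)) (fun s _ h2 => ?_) m
          have h2' := abs_lt.mp h2
          exact ih (t - 3 * r / 4 + s) (by linarith [h2'.1]) (by linarith [h2'.2]) (by nlinarith [h2'.2])
        have hs34 : |3 * r / 4| < r := by
          rw [abs_of_nonneg (by linarith)]
          linarith
        refine sum_zero (a := a) (s := 3 * r / 4) hr hs34 ha (fun i => ?_) hc
        have := hs i (3 * r / 4) hs34
        rwa [sub_add_cancel] at this
  obtain ⟨j, hj⟩ := exists_nat_gt (t / (r / 2))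
  have hr2 : 0 < r / 2 := by linarith
  refine key j t ht0 htT ?_
  rw [div_lt_iff₀ hr2] at hj
  nlinarith

end Pool.Agent.Lib.MP_b414a3_an.PN
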