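import Mathlib

/-!
MP_b414a3_an, board PN: averages of polynomials over signed permutations of an orthonormal sequence.
-/

set_option autoImplicit false

namespace Pool.Agent.Lib.MP_b414a3_an.PN

open Finset

/-- the sign of a truth value -/
def sg (b : Bool) : ℝ := if b then 1 else -1

/-- all fibres of `f` have an even number of elements -/
def EvenF {m k : ℕ} (f : Fin m → Fin k) : Prop := ∀ i, Even (univ.filter fun j => f j = i).card

/-- the kernel of `f` -/
def ker {m k : ℕ} (f : Fin m → Fin k) : Fin m → Fin m → Bool := fun a b => decide (f a = f b)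

variable {H : Type*} [NormedAddCommGroup H] [InnerProductSpace ℝ H]

/-- the vector `k ^ (-1/2) * (± e (σ 0) ± ... ± e (σ (k - 1)))` -/
noncomputable def vec (e : ℕ → H) {n k : ℕ} (hk : k ≤ n) (σ : Equiv.Perm (Fin n)) (s : Fin n → Bool) : H :=
  (√(k : ℝ))⁻¹ • ∑ i : Fin k, sg (s (Fin.castLE hk i)) • e (σ (Fin.castLE hk i))

/-- the norm `max (‖x‖, sup_S 2 |S| ^ (-1/2) ∑_(i ∈ S) |⟪e i, x⟫|)`, over the finite sets `S` of natural numbers
whose number of elements is a power of 256 -/
noncomputable def nn (e : ℕ → H) (x : H) : ℝ :=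
  max ‖x‖ (⨆ S : {S : Finset ℕ // ∃ j : ℕ, S.card = 256 ^ j},
    2 * (√(S.1.card : ℝ))⁻¹ * ∑ i ∈ S.1, |inner ℝ (e i) x|)

end Pool.Agent.Lib.MP_b414a3_an.PN
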