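import Pool.Agent.Lib.MP_b414a3_an.PN.Defs

/-!
MP_b414a3_an, board PN: the norm with the constants `A` and `q`; polynomials.
-/

set_option autoImplicit false

namespace Pool.Agent.Lib.MP_b414a3_an.PN

open Finset

variable {H : Type*} [NormedAddCommGroup H] [InnerProductSpace ℝ H]

/-- the norm `max (‖x‖, sup_S A |S| ^ (-1/2) ∑_(i ∈ S) |⟪e i, x⟫|)`, over the finite sets `S` of natural numbers
whose number of elements is an even power of `q` -/
noncomputable def na (A : ℝ) (q : ℕ) (e : ℕ → H) (x : H) : ℝ :=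
  max ‖x‖ (⨆ S : {S : Finset ℕ // ∃ j : ℕ, S.card = q ^ (2 * j)},
    A * (√(S.1.card : ℝ))⁻¹ * ∑ i ∈ S.1, |inner ℝ (e i) x|)

/-- continuous polynomials -/
def IsPoly (F : H → ℝ) : Prop := ∃ (d : ℕ) (B : (m : ℕ) → ContinuousMultilinearMap ℝ (fun _ : Fin m => H) ℝ),
  ∀ x, F x = ∑ m ∈ range (d + 1), B m fun _ => x

end Pool.Agent.Lib.MP_b414a3_an.PN
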