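import Pool.Agent.Lib.MP_b414a3_an.PN.ValA

/-!
MP_b414a3_an, board PN3: the norm on the path `a e_0 + b v`.
-/

set_option autoImplicit false

namespace Pool.Agent.Lib.MP_b414a3_an.PN

open Finset

variable {H : Type*} [NormedAddCommGroup H] [InnerProductSpace ℝ H] {e : ℕ → H}

theorem shift_on (he : Orthonormal ℝ e) : Orthonormal ℝ fun n => e (n + 1) :=
  he.comp (fun n => n + 1) fun a b h => by simpa using h

theorem inner_zero (he : Orthonormal ℝ e) {n k : ℕ} (hk : k ≤ n) (σ : Equiv.Perm (Fin n)) (s : Fin n → Bool) :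
    inner ℝ (e 0) (vec (fun n => e (n + 1)) hk σ s) = 0 := by
  unfold vec
  rw [real_inner_smul_right, inner_sum]
  have h : ∀ i ∈ (univ : Finset (Fin k)),
      inner ℝ (e 0) (sg (s (Fin.castLE hk i)) • e ((σ (Fin.castLE hk i) : ℕ) + 1)) = 0 := by
    intro i _
    rw [real_inner_smul_right, he.2 (by omega), mul_zero]
  rw [sum_eq_zero h, mul_zero]

theorem norm_path (he : Orthonormal ℝ e) {n k : ℕ} (hk : k ≤ n) (h0 : 0 < k) (σ : Equiv.Perm (Fin n)) (s : Fin n → Bool)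
    (a b : ℝ) : ‖a • e 0 + b • vec (fun n => e (n + 1)) hk σ s‖ ^ 2 = a ^ 2 + b ^ 2 := by
  rw [norm_add_sq_real, real_inner_smul_left, real_inner_smul_right, inner_zero he, norm_smul, norm_smul,
    he.1 0, norm_vec (shift_on he) hk h0, Real.norm_eq_abs, Real.norm_eq_abs, mul_one, mul_one, sq_abs, sq_abs]
  ring

private theorem sup_path (he : Orthonormal ℝ e) (A : ℝ) (q : ℕ) {n k : ℕ} (hk : k ≤ n)
    (σ : Equiv.Perm (Fin n)) (s : Fin n → Bool) {a b : ℝ} (hb : 0 ≤ b) :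
    (⨆ S : {S : Finset ℕ // ∃ j : ℕ, S.card = q ^ (2 * j)},
      A * (√(S.1.card : ℝ))⁻¹ * ∑ i ∈ S.1, |inner ℝ (e (i + 1)) (a • e 0 + b • vec (fun n => e (n + 1)) hk σ s)|) =
    b * ⨆ S : {S : Finset ℕ // ∃ j : ℕ, S.card = q ^ (2 * j)},
      A * (√(S.1.card : ℝ))⁻¹ * ∑ i ∈ S.1, |inner ℝ (e (i + 1)) (vec (fun n => e (n + 1)) hk σ s)| := by
  rw [Real.mul_iSup_of_nonneg hb]
  refine iSup_congr fun S => ?_
  have h : ∀ i ∈ S.1, |inner ℝ (e (i + 1)) (a • e 0 + b • vec (fun n => e (n + 1)) hk σ s)| =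
      b * |inner ℝ (e (i + 1)) (vec (fun n => e (n + 1)) hk σ s)| := by
    intro i _
    rw [inner_add_right, real_inner_smul_right, real_inner_smul_right, he.2 (by omega), mul_zero, zero_add,
      abs_mul, abs_of_nonneg hb]
  rw [sum_congr rfl h, ← mul_sum]
  ring

theorem na_path_A (he : Orthonormal ℝ e) {A : ℝ} (hA : 1 < A) {q : ℕ} (hq : A ^ 2 ≤ q) {n i : ℕ} (hk : q ^ (2 * i) ≤ n)
    (σ : Equiv.Perm (Fin n)) (s : Fin n → Bool) {a b : ℝ} (hb : 0 ≤ b) :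
    b * A ≤ na A q (fun n => e (n + 1)) (a • e 0 + b • vec (fun n => e (n + 1)) hk σ s) := by
  have hq0 : 0 < q := by
    rcases Nat.eq_zero_or_pos q with h | h
    · exfalso
      rw [h, Nat.cast_zero] at hq
      nlinarith
    · exact h
  have h1 := na_A (shift_on he) hA.le hq hk σ s
  have h2 := norm_vec (shift_on he) hk (pow_pos hq0 (2 * i)) σ s
  unfold na at h1 ⊢
  rw [h2] at h1
  rw [sup_path he A q hk σ s hb]
  have h3 : (⨆ S : {S : Finset ℕ // ∃ j : ℕ, S.card = q ^ (2 * j)},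
      A * (√(S.1.card : ℝ))⁻¹ * ∑ i ∈ S.1, |inner ℝ (e (i + 1)) (vec (fun n => e (n + 1)) hk σ s)|) = A := by
    rcases max_choice (1 : ℝ) (⨆ S : {S : Finset ℕ // ∃ j : ℕ, S.card = q ^ (2 * j)},
      A * (√(S.1.card : ℝ))⁻¹ * ∑ i ∈ S.1, |inner ℝ (e (i + 1)) (vec (fun n => e (n + 1)) hk σ s)|) with h4 | h4
    · rw [h4] at h1
      linarith
    · rw [h4] at h1
      exact h1
  rw [h3]
  exact le_max_right _ _

theorem na_path_one (he : Orthonormal ℝ e) {A : ℝ} (hA : 1 < A) {q : ℕ} (hq : A ^ 2 ≤ q) {n i : ℕ}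
    (hk : q ^ (2 * i + 1) ≤ n) (σ : Equiv.Perm (Fin n)) (s : Fin n → Bool) {a b : ℝ} (hb : 0 ≤ b)
    (hab : a ^ 2 + b ^ 2 = 1) : na A q (fun n => e (n + 1)) (a • e 0 + b • vec (fun n => e (n + 1)) hk σ s) = 1 := by
  have hq0 : 0 < q := by
    rcases Nat.eq_zero_or_pos q with h | h
    · exfalso
      rw [h, Nat.cast_zero] at hq
      nlinarith
    · exact h
  have h1 := na_one (shift_on he) hA.le hq hk σ s
  have h2 := norm_path he hk (pow_pos hq0 (2 * i + 1)) σ s a b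
  rw [hab] at h2
  have h3 : ‖a • e 0 + b • vec (fun n => e (n + 1)) hk σ s‖ = 1 := by
    have h4 := norm_nonneg (a • e 0 + b • vec (fun n => e (n + 1)) hk σ s)
    nlinarith
  unfold na at h1 ⊢
  rw [sup_path he A q hk σ s hb, h3]
  have h5 := (le_max_right _ _).trans (le_of_eq h1)
  have hb1 : b ≤ 1 := by nlinarith [sq_nonneg a]
  refine max_eq_left ?_
  calc _ ≤ b * 1 := mul_le_mul_of_nonneg_left h5 hb
    _ ≤ 1 := by linarith

end Pool.Agent.Lib.MP_b414a3_an.PN
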