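import Pool.Agent.Lib.MP_b414a3_an.PN.Avg
import Pool.Agent.Lib.MP_b414a3_an.PN.Cont
import Pool.Agent.Lib.MP_b414a3_an.PN.ValU

/-!
MP_b414a3_an, board PN3: the norm is far from all uniformly analytic functions.
-/

set_option autoImplicit false

namespace Pool.Agent.Lib.MP_b414a3_an.PN

open Finset Filter

variable {H : Type*} [NormedAddCommGroup H] [InnerProductSpace ℝ H]

/-- `F` is uniformly analytic on every shell `a ≤ ‖x‖ ≤ 1`: the power series of `F` at the points of the shell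
have a common radius and a common bound of their coefficients -/
def UniformlyAnalytic (F : H → ℝ) : Prop := ∀ a > 0, ∃ r > 0, ∃ M : ℝ, ∀ x : H, a ≤ ‖x‖ → ‖x‖ ≤ 1 →
  ∃ B : (m : ℕ) → ContinuousMultilinearMap ℝ (fun _ : Fin m => H) ℝ, (∀ m, ‖B m‖ * r ^ m ≤ M) ∧
    ∀ h, ‖h‖ < r → HasSum (fun m => B m fun _ => h) (F (x + h))

theorem avg_hasSum (e : ℕ → H) {n k : ℕ} (hk : k ≤ n) (G : ℕ → H → ℝ) (F : H → ℝ) (t : ℝ)
    (h : ∀ σ s, HasSum (fun m => G m (vec e hk σ s) * t ^ m) (F (vec e hk σ s))) :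
    HasSum (fun m => avg e hk (G m) * t ^ m) (avg e hk F) := by
  have h1 : HasSum (fun m => ∑ p : Equiv.Perm (Fin n) × (Fin n → Bool), G m (vec e hk p.1 p.2) * t ^ m)
      (∑ p : Equiv.Perm (Fin n) × (Fin n → Bool), F (vec e hk p.1 p.2)) := hasSum_sum fun p _ => h p.1 p.2
  have h2 := h1.div_const ((n.factorial : ℝ) * 2 ^ n)
  have h3 : (fun m => avg e hk (G m) * t ^ m) = fun m =>
      (∑ p : Equiv.Perm (Fin n) × (Fin n → Bool), G m (vec e hk p.1 p.2) * t ^ m) / ((n.factorial : ℝ) * 2 ^ n) := by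
    funext m
    unfold avg
    rw [← sum_mul]
    ring
  rw [h3]
  exact h2

theorem avg_abs_le (e : ℕ → H) {n k : ℕ} (hk : k ≤ n) (F : H → ℝ) (M : ℝ)
    (h : ∀ σ s, |F (vec e hk σ s)| ≤ M) : |avg e hk F| ≤ M := by
  obtain ⟨σ, s, h1⟩ := exists_le_avg e hk F
  obtain ⟨σ', s', h2⟩ := exists_ge_avg e hk F
  have h3 := abs_le.1 (h σ s)
  have h4 := abs_le.1 (h σ' s')
  exact abs_le.2 ⟨by linarith, by linarith⟩

theorem finalU (e : ℕ → H) (he : Orthonormal ℝ e) (A : ℝ) (hA : 1 ≤ A) : ∃ N : H → ℝ,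
    (∀ x y, N (x + y) ≤ N x + N y) ∧ (∀ (t : ℝ) x, N (t • x) = |t| * N x) ∧
    (∀ x, ‖x‖ ≤ N x ∧ N x ≤ A * ‖x‖) ∧
    ∀ F : H → ℝ, UniformlyAnalytic F → ∀ c < (A - 1) / 2, ∃ x, ‖x‖ ≤ 1 ∧ c < |N x - F x| := by
  obtain ⟨q, hq⟩ := exists_nat_ge (A ^ 2 + 2)
  have hq1 : A ^ 2 ≤ q := by linarith
  have hq2 : 2 ≤ q := by
    have h1 : (2 : ℝ) ≤ q := by nlinarith [sq_nonneg A]
    exact_mod_cast h1
  have he' : Orthonormal ℝ fun n => e (n + 1) := shift_on he
  refine ⟨na A q fun n => e (n + 1), na_add he' hA q, na_smul A q, na_le he' hA q, fun F hF c hc => ?_⟩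
  rcases hA.eq_or_lt with hA1 | hA1
  · refine ⟨0, by simp, lt_of_lt_of_le ?_ (abs_nonneg _)⟩
    rw [← hA1] at hc
    linarith
  by_contra hcon
  push Not at hcon
  -- the end point of the path
  obtain ⟨b, hb0, hb1, hbA⟩ : ∃ b : ℝ, 0 < b ∧ b < 1 ∧ 1 + 2 * c < b * A := by
    have hA0 : 0 < A := by linarith
    have h1 : (1 + 2 * c) / A < 1 := by
      rw [div_lt_one hA0]
      linarith
    obtain ⟨b, hb, hb'⟩ := exists_between (max_lt h1 one_pos)
    refine ⟨b, (le_max_right _ _).trans_lt hb, hb', ?_⟩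
    rw [← div_lt_iff₀ hA0]
    exact (le_max_left _ _).trans_lt hb
  have ha0 : 0 < √(1 - b ^ 2) := Real.sqrt_pos.2 (by nlinarith)
  obtain ⟨a, ha, hab⟩ : ∃ a : ℝ, 0 < a ∧ a ^ 2 + b ^ 2 = 1 :=
    ⟨_, ha0, by rw [Real.sq_sqrt (by nlinarith)]; ring⟩
  obtain ⟨r, hr, M, hB⟩ := hF a ha
  choose! B hB1 hB2 using hB
  have hk : ∀ i, q ^ (2 * i) ≤ q ^ (2 * i + 1) := fun i => Nat.pow_le_pow_right (by omega) (by omega)
  have hk' : ∀ i, q ^ (2 * i + 1) ≤ q ^ (2 * i + 1) := fun i => le_rfl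
  have hp : ∀ i, 0 < q ^ (2 * i) := fun i => by positivity
  have hp' : ∀ i, 0 < q ^ (2 * i + 1) := fun i => by positivity
  -- the path stays in the shell
  have hshell : ∀ {n k : ℕ} (h1 : k ≤ n) (h2 : 0 < k) (σ : Equiv.Perm (Fin n)) (s : Fin n → Bool) (t : ℝ), 0 ≤ t → t ≤ b →
      a ≤ ‖a • e 0 + t • vec (fun n => e (n + 1)) h1 σ s‖ ∧ ‖a • e 0 + t • vec (fun n => e (n + 1)) h1 σ s‖ ≤ 1 := by
    intro n k h1 h2 σ s t ht0 ht1
    have h3 := norm_path he h1 h2 σ s a t
    have h4 := norm_nonneg (a • e 0 + t • vec (fun n => e (n + 1)) h1 σ s)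
    constructor
    · nlinarith [sq_nonneg t]
    · nlinarith [mul_self_le_mul_self ht0 ht1]
  set Fi : ℕ → ℝ → ℝ := fun i t => avg (fun n => e (n + 1)) (hk i) (fun v => F (a • e 0 + t • v)) -
    avg (fun n => e (n + 1)) (hk' i) (fun v => F (a • e 0 + t • v)) with hFi
  have hlim : Tendsto (fun i => Fi i b) atTop (nhds 0) := by
    refine continuation (C := 2 * M) (T := b) hr (fun t₀ ht0 ht1 => ?_) hb0.le le_rfl
    have hG : ∀ {n k : ℕ} (h1 : k ≤ n) (h2 : 0 < k), (∀ m, |avg (fun n => e (n + 1)) h1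
        (fun v => B (a • e 0 + t₀ • v) m fun _ => v)| * r ^ m ≤ M) ∧ ∀ s : ℝ, |s| < r →
        HasSum (fun m => avg (fun n => e (n + 1)) h1 (fun v => B (a • e 0 + t₀ • v) m fun _ => v) * s ^ m)
          (avg (fun n => e (n + 1)) h1 fun v => F (a • e 0 + (t₀ + s) • v)) := by
      intro n k h1 h2
      constructor
      · intro m
        have hrm : 0 < r ^ m := by positivity
        rw [← le_div_iff₀ hrm]
        refine avg_abs_le _ h1 _ _ fun σ s => ?_
        obtain ⟨h3, h4⟩ := hshell h1 h2 σ s t₀ ht0 ht1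
        rw [le_div_iff₀ hrm]
        refine le_trans (mul_le_mul_of_nonneg_right ?_ hrm.le) (hB1 _ h3 h4 m)
        have h5 := (B (a • e 0 + t₀ • vec (fun n => e (n + 1)) h1 σ s) m).le_opNorm
          fun _ => vec (fun n => e (n + 1)) h1 σ s
        rw [Real.norm_eq_abs] at h5
        refine h5.trans (le_of_eq ?_)
        simp [norm_vec he' h1 h2 σ s]
      · intro s hs
        refine avg_hasSum _ h1 (fun m v => B (a • e 0 + t₀ • v) m fun _ => v)
          (fun v => F (a • e 0 + (t₀ + s) • v)) s fun σ s' => ?_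
        obtain ⟨h3, h4⟩ := hshell h1 h2 σ s' t₀ ht0 ht1
        have h5 := hB2 _ h3 h4 (s • vec (fun n => e (n + 1)) h1 σ s') (by
          rw [norm_smul, norm_vec he' h1 h2 σ s', mul_one, Real.norm_eq_abs]
          exact hs)
        have h6 : a • e 0 + t₀ • vec (fun n => e (n + 1)) h1 σ s' + s • vec (fun n => e (n + 1)) h1 σ s' =
            a • e 0 + (t₀ + s) • vec (fun n => e (n + 1)) h1 σ s' := by
          rw [add_smul, add_assoc]
        rw [h6] at h5
        have h7 : (fun m => B (a • e 0 + t₀ • vec (fun n => e (n + 1)) h1 σ s') m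
            fun _ => s • vec (fun n => e (n + 1)) h1 σ s') = fun m =>
            (B (a • e 0 + t₀ • vec (fun n => e (n + 1)) h1 σ s') m
              fun _ => vec (fun n => e (n + 1)) h1 σ s') * s ^ m := by
          funext m
          have h8 := (B (a • e 0 + t₀ • vec (fun n => e (n + 1)) h1 σ s') m).map_smul_univ (fun _ => s)
            fun _ => vec (fun n => e (n + 1)) h1 σ s'
          rw [h8, prod_const, card_univ, Fintype.card_fin, smul_eq_mul, mul_comm]
        rw [h7] at h5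
        exact h5
    refine ⟨fun i m => avg (fun n => e (n + 1)) (hk i) (fun v => B (a • e 0 + t₀ • v) m fun _ => v) -
      avg (fun n => e (n + 1)) (hk' i) (fun v => B (a • e 0 + t₀ • v) m fun _ => v), ?_, ?_, ?_⟩
    · intro i m
      have h1 := (hG (hk i) (hp i)).1 m
      have h2 := (hG (hk' i) (hp' i)).1 m
      have hrm : 0 < r ^ m := by positivity
      refine (mul_le_mul_of_nonneg_right (abs_sub _ _) hrm.le).trans ?_
      rw [add_mul]
      linarith
    · intro i s hs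
      have h1 := (hG (hk i) (hp i)).2 s hs
      have h2 := (hG (hk' i) (hp' i)).2 s hs
      have h3 := h1.sub h2
      simpa only [sub_mul] using h3
    · intro h00 m
      subst h00
      simp only [zero_smul, add_zero]
      rw [Metric.tendsto_atTop]
      intro δ hδ
      obtain ⟨K, hK⟩ := avg_close he' (B (a • e 0) m) (half_pos hδ)
      refine ⟨K, fun i hi => ?_⟩
      have h1 : K ≤ q ^ (2 * i) := hi.trans ((Nat.lt_pow_self (show 1 < q by omega)).le.trans
        (Nat.pow_le_pow_right (by omega) (by omega)))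
      have h2 := hK _ _ _ (hk i) (hk' i) h1 (h1.trans (hk i))
      rw [Real.dist_eq, sub_zero]
      linarith
  have hlow : ∀ i, b * A - 1 - 2 * c ≤ Fi i b := by
    intro i
    obtain ⟨σ, s, h1⟩ := exists_le_avg (fun n => e (n + 1)) (hk i) (fun v => F (a • e 0 + b • v))
    obtain ⟨σ', s', h2⟩ := exists_ge_avg (fun n => e (n + 1)) (hk' i) (fun v => F (a • e 0 + b • v))
    have h3 := na_path_A he hA1 hq1 (hk i) σ s (a := a) hb0.le
    have h4 := na_path_one he hA1 hq1 (hk' i) σ' s' hb0.le hab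
    have h5 := abs_le.1 (hcon _ (hshell (hk i) (hp i) σ s b hb0.le le_rfl).2)
    have h6 := abs_le.1 (hcon _ (hshell (hk' i) (hp' i) σ' s' b hb0.le le_rfl).2)
    rw [h4] at h6
    simp only [hFi]
    linarith [h5.1, h5.2, h6.1, h6.2]
  have h7 := ge_of_tendsto' hlim hlow
  linarith

end Pool.Agent.Lib.MP_b414a3_an.PN
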