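import Pool.Agent.Lib.MP_b414a3_an.PN.Defs

/-! The norm `nn`. -/

set_option autoImplicit false

namespace Pool.Agent.Lib.MP_b414a3_an.PN

open Finset

variable {H : Type*} [NormedAddCommGroup H] [InnerProductSpace ℝ H] {e : ℕ → H}

theorem bdd (he : Orthonormal ℝ e) (x : H) : ∀ S : {S : Finset ℕ // ∃ j : ℕ, S.card = 256 ^ j},
    2 * (√(S.1.card : ℝ))⁻¹ * ∑ i ∈ S.1, |inner ℝ (e i) x| ≤ 2 * ‖x‖ := by
  rintro ⟨S, j, hj⟩
  show 2 * (√(S.card : ℝ))⁻¹ * ∑ i ∈ S, |inner ℝ (e i) x| ≤ 2 * ‖x‖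
  have hc : (0 : ℝ) < S.card := by
    rw [hj]
    positivity
  have hs : 0 < √(S.card : ℝ) := Real.sqrt_pos.2 hc
  have h1 : (∑ i ∈ S, |inner ℝ (e i) x|) ^ 2 ≤ S.card * ∑ i ∈ S, |inner ℝ (e i) x| ^ 2 :=
    sq_sum_le_card_mul_sum_sq
  have h2 : ∑ i ∈ S, |inner ℝ (e i) x| ^ 2 ≤ ‖x‖ ^ 2 := by
    have h3 := he.sum_inner_products_le (x := x) (s := S)
    simpa only [Real.norm_eq_abs] using h3
  have h4 : (∑ i ∈ S, |inner ℝ (e i) x|) ^ 2 ≤ (√(S.card : ℝ) * ‖x‖) ^ 2 := by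
    rw [mul_pow, Real.sq_sqrt hc.le]
    exact h1.trans (mul_le_mul_of_nonneg_left h2 hc.le)
  have h5 : ∑ i ∈ S, |inner ℝ (e i) x| ≤ √(S.card : ℝ) * ‖x‖ :=
    (abs_le_of_sq_le_sq' h4 (by positivity)).2
  have h6 : 2 * (√(S.card : ℝ))⁻¹ * ∑ i ∈ S, |inner ℝ (e i) x| ≤
      2 * (√(S.card : ℝ))⁻¹ * (√(S.card : ℝ) * ‖x‖) :=
    mul_le_mul_of_nonneg_left h5 (by positivity)
  refine h6.trans (le_of_eq ?_)
  field_simp

private theorem Norm_ne : Nonempty {S : Finset ℕ // ∃ j : ℕ, S.card = 256 ^ j} :=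
  ⟨⟨{0}, 0, by simp⟩⟩

private theorem Norm_bdd (he : Orthonormal ℝ e) (x : H) :
    BddAbove (Set.range fun S : {S : Finset ℕ // ∃ j : ℕ, S.card = 256 ^ j} =>
      2 * (√(S.1.card : ℝ))⁻¹ * ∑ i ∈ S.1, |inner ℝ (e i) x|) := by
  refine ⟨2 * ‖x‖, ?_⟩
  rintro _ ⟨S, rfl⟩
  exact bdd he x S

theorem nn_le (he : Orthonormal ℝ e) (x : H) : ‖x‖ ≤ nn e x ∧ nn e x ≤ 2 * ‖x‖ := by
  have := Norm_ne
  refine ⟨le_max_left _ _, max_le ?_ (ciSup_le (bdd he x))⟩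
  linarith [norm_nonneg x]

theorem nn_add (he : Orthonormal ℝ e) (x y : H) : nn e (x + y) ≤ nn e x + nn e y := by
  have := Norm_ne
  refine max_le ?_ (ciSup_le fun S => ?_)
  · exact (norm_add_le x y).trans (add_le_add (le_max_left _ _) (le_max_left _ _))
  · have h1 : 2 * (√(S.1.card : ℝ))⁻¹ * ∑ i ∈ S.1, |inner ℝ (e i) (x + y)| ≤
        2 * (√(S.1.card : ℝ))⁻¹ * ∑ i ∈ S.1, |inner ℝ (e i) x| +
          2 * (√(S.1.card : ℝ))⁻¹ * ∑ i ∈ S.1, |inner ℝ (e i) y| := by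
      rw [← mul_add, ← Finset.sum_add_distrib]
      refine mul_le_mul_of_nonneg_left (Finset.sum_le_sum fun i _ => ?_) (by positivity)
      rw [inner_add_right]
      exact abs_add_le _ _
    refine h1.trans (add_le_add ?_ ?_)
    · exact (le_ciSup (Norm_bdd he x) S).trans (le_max_right _ _)
    · exact (le_ciSup (Norm_bdd he y) S).trans (le_max_right _ _)

theorem nn_smul (he : Orthonormal ℝ e) (c : ℝ) (x : H) : nn e (c • x) = |c| * nn e x := by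
  have h1 : ∀ S : {S : Finset ℕ // ∃ j : ℕ, S.card = 256 ^ j},
      2 * (√(S.1.card : ℝ))⁻¹ * ∑ i ∈ S.1, |inner ℝ (e i) (c • x)| =
        |c| * (2 * (√(S.1.card : ℝ))⁻¹ * ∑ i ∈ S.1, |inner ℝ (e i) x|) := by
    intro S
    have h2 : ∑ i ∈ S.1, |inner ℝ (e i) (c • x)| = |c| * ∑ i ∈ S.1, |inner ℝ (e i) x| := by
      rw [Finset.mul_sum]
      refine Finset.sum_congr rfl fun i _ => ?_
      rw [real_inner_smul_right, abs_mul]
    rw [h2]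
    ring
  unfold nn
  rw [iSup_congr h1, ← Real.mul_iSup_of_nonneg (abs_nonneg c), norm_smul, Real.norm_eq_abs,
    mul_max_of_nonneg _ _ (abs_nonneg c)]

end Pool.Agent.Lib.MP_b414a3_an.PN
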