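import Pool.Agent.Lib.MP_b414a3_an.PN.DefsA

/-! The norm `na`. -/

set_option autoImplicit false

namespace Pool.Agent.Lib.MP_b414a3_an.PN

open Finset

variable {H : Type*} [NormedAddCommGroup H] [InnerProductSpace ℝ H] {e : ℕ → H}

theorem bddA (he : Orthonormal ℝ e) {A : ℝ} (hA : 1 ≤ A) (q : ℕ) (x : H) :
    ∀ S : {S : Finset ℕ // ∃ j : ℕ, S.card = q ^ (2 * j)},
      A * (√(S.1.card : ℝ))⁻¹ * ∑ i ∈ S.1, |inner ℝ (e i) x| ≤ A * ‖x‖ := by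
  rintro ⟨S, j, hj⟩
  show A * (√(S.card : ℝ))⁻¹ * ∑ i ∈ S, |inner ℝ (e i) x| ≤ A * ‖x‖
  have hA0 : 0 ≤ A := by linarith
  rcases Nat.eq_zero_or_pos S.card with h0 | h0
  · rw [h0, Nat.cast_zero, Real.sqrt_zero, inv_zero, mul_zero, zero_mul]
    exact mul_nonneg hA0 (norm_nonneg x)
  have hc : (0 : ℝ) < S.card := by exact_mod_cast h0
  have hs : 0 < √(S.card : ℝ) := Real.sqrt_pos.2 hc
  have h1 : (∑ i ∈ S, |inner ℝ (e i) x|) ^ 2 ≤ S.card * ∑ i ∈ S, |inner ℝ (e i) x| ^ 2 :=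
    sq_sum_le_card_mul_sum_sq
  have h2 : ∑ i ∈ S, |inner ℝ (e i) x| ^ 2 ≤ ‖x‖ ^ 2 := by
    have h3 := he.sum_inner_products_le (x := x) (s := S)
    simpa only [Real.norm_eq_abs] using h3
  have h4 : (∑ i ∈ S, |inner ℝ (e i) x|) ^ 2 ≤ (√(S.card : ℝ) * ‖x‖) ^ 2 := by
    rw [mul_pow, Real.sq_sqrt hc.le]
    exact h1.trans (mul_le_mul_of_nonneg_left h2 hc.le)
  have h5 : ∑ i ∈ S, |inner ℝ (e i) x| ≤ √(S.card : ℝ) * ‖x‖ :=
    (abs_le_of_sq_le_sq' h4 (by positivity)).2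
  have h6 : A * (√(S.card : ℝ))⁻¹ * ∑ i ∈ S, |inner ℝ (e i) x| ≤
      A * (√(S.card : ℝ))⁻¹ * (√(S.card : ℝ) * ‖x‖) :=
    mul_le_mul_of_nonneg_left h5 (by positivity)
  refine h6.trans (le_of_eq ?_)
  field_simp

private theorem NormA_ne (q : ℕ) : Nonempty {S : Finset ℕ // ∃ j : ℕ, S.card = q ^ (2 * j)} :=
  ⟨⟨{0}, 0, by simp⟩⟩

private theorem NormA_bdd (he : Orthonormal ℝ e) {A : ℝ} (hA : 1 ≤ A) (q : ℕ) (x : H) :
    BddAbove (Set.range fun S : {S : Finset ℕ // ∃ j : ℕ, S.card = q ^ (2 * j)} =>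
      A * (√(S.1.card : ℝ))⁻¹ * ∑ i ∈ S.1, |inner ℝ (e i) x|) := by
  refine ⟨A * ‖x‖, ?_⟩
  rintro _ ⟨S, rfl⟩
  exact bddA he hA q x S

theorem na_le (he : Orthonormal ℝ e) {A : ℝ} (hA : 1 ≤ A) (q : ℕ) (x : H) : ‖x‖ ≤ na A q e x ∧ na A q e x ≤ A * ‖x‖ := by
  have := NormA_ne q
  refine ⟨le_max_left _ _, max_le ?_ (ciSup_le (bddA he hA q x))⟩
  nlinarith [norm_nonneg x]

theorem na_add (he : Orthonormal ℝ e) {A : ℝ} (hA : 1 ≤ A) (q : ℕ) (x y : H) :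
    na A q e (x + y) ≤ na A q e x + na A q e y := by
  have := NormA_ne q
  have hA0 : 0 ≤ A := by linarith
  refine max_le ?_ (ciSup_le fun S => ?_)
  · exact (norm_add_le x y).trans (add_le_add (le_max_left _ _) (le_max_left _ _))
  · have h1 : A * (√(S.1.card : ℝ))⁻¹ * ∑ i ∈ S.1, |inner ℝ (e i) (x + y)| ≤
        A * (√(S.1.card : ℝ))⁻¹ * ∑ i ∈ S.1, |inner ℝ (e i) x| +
          A * (√(S.1.card : ℝ))⁻¹ * ∑ i ∈ S.1, |inner ℝ (e i) y| := by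
      rw [← mul_add, ← Finset.sum_add_distrib]
      refine mul_le_mul_of_nonneg_left (Finset.sum_le_sum fun i _ => ?_) (by positivity)
      rw [inner_add_right]
      exact abs_add_le _ _
    refine h1.trans (add_le_add ?_ ?_)
    · exact (le_ciSup (NormA_bdd he hA q x) S).trans (le_max_right _ _)
    · exact (le_ciSup (NormA_bdd he hA q y) S).trans (le_max_right _ _)

theorem na_smul (A : ℝ) (q : ℕ) (t : ℝ) (x : H) : na A q e (t • x) = |t| * na A q e x := by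
  have h1 : ∀ S : {S : Finset ℕ // ∃ j : ℕ, S.card = q ^ (2 * j)},
      A * (√(S.1.card : ℝ))⁻¹ * ∑ i ∈ S.1, |inner ℝ (e i) (t • x)| =
        |t| * (A * (√(S.1.card : ℝ))⁻¹ * ∑ i ∈ S.1, |inner ℝ (e i) x|) := by
    intro S
    have h2 : ∑ i ∈ S.1, |inner ℝ (e i) (t • x)| = |t| * ∑ i ∈ S.1, |inner ℝ (e i) x| := by
      rw [Finset.mul_sum]
      refine Finset.sum_congr rfl fun i _ => ?_
      rw [real_inner_smul_right, abs_mul]
    rw [h2]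
    ring
  unfold na
  rw [iSup_congr h1, ← Real.mul_iSup_of_nonneg (abs_nonneg t), norm_smul, Real.norm_eq_abs,
    mul_max_of_nonneg _ _ (abs_nonneg t)]

end Pool.Agent.Lib.MP_b414a3_an.PN
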