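import Pool.Agent.Lib.MP_b414a3_an.PN.Defs

/-! Sums of products of signs. -/

set_option autoImplicit false

namespace Pool.Agent.Lib.MP_b414a3_an.PN

open Finset

private theorem prod_fib {m n : ℕ} (f : Fin m → Fin n) (s : Fin n → Bool) :
    ∏ j, sg (s (f j)) = ∏ i : Fin n, sg (s i) ^ (univ.filter fun j => f j = i).card := by
  rw [← Finset.prod_fiberwise (s := univ) (g := f) (f := fun j => sg (s (f j)))]
  refine Finset.prod_congr rfl fun i _ => ?_
  rw [← Finset.prod_const]
  refine Finset.prod_congr rfl fun j hj => ?_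
  rw [(Finset.mem_filter.mp hj).2]

private theorem sum_prod_bool {n : ℕ} (g : Fin n → Bool → ℝ) :
    ∑ s : Fin n → Bool, ∏ i, g i (s i) = ∏ i, (g i true + g i false) := by
  have h := Finset.prod_univ_sum (fun _ : Fin n => (univ : Finset Bool)) (fun i b => g i b)
  rw [Fintype.piFinset_univ] at h
  rw [← h]
  refine Finset.prod_congr rfl fun i _ => ?_
  simp

open Classical in
theorem sum_sign {m n : ℕ} (f : Fin m → Fin n) :
    ∑ s : Fin n → Bool, ∏ j, sg (s (f j)) = if EvenF f then (2 : ℝ) ^ n else 0 := by
  have h1 : ∑ s : Fin n → Bool, ∏ j, sg (s (f j)) =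
      ∏ i : Fin n, ((1 : ℝ) + (-1) ^ (univ.filter fun j => f j = i).card) := by
    have h2 := sum_prod_bool (fun i b => sg b ^ (univ.filter fun j => f j = i).card)
    simp only [sg, if_true, one_pow, Bool.false_eq_true, if_false] at h2
    rw [← h2]
    refine Finset.sum_congr rfl fun s _ => ?_
    rw [prod_fib]
    rfl
  rw [h1]
  split_ifs with hE
  · have h3 : ∀ i ∈ (univ : Finset (Fin n)),
        ((1 : ℝ) + (-1) ^ (univ.filter fun j => f j = i).card) = 2 := by
      intro i _
      rw [(hE i).neg_one_pow]
      norm_num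
    rw [Finset.prod_congr rfl h3]
    simp
  · unfold EvenF at hE
    push Not at hE
    obtain ⟨i, hi⟩ := hE
    refine Finset.prod_eq_zero (Finset.mem_univ i) ?_
    have h4 : Odd (univ.filter fun j => f j = i).card := by
      first
        | exact hi
        | exact Nat.not_even_iff_odd.mp hi
    rw [h4.neg_one_pow]
    norm_num

end Pool.Agent.Lib.MP_b414a3_an.PN
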