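import Pool.Agent.Lib.MP_b414a3_an.PN.Norm

set_option autoImplicit false

namespace Pool.Agent.Lib.MP_b414a3_an.PN

open Finset

variable {H : Type*} [NormedAddCommGroup H] [InnerProductSpace ℝ H] {e : ℕ → H}

private theorem sg_sq (b : Bool) : sg b * sg b = 1 := by
  cases b <;> simp [sg]

private theorem abs_sg (b : Bool) : |sg b| = 1 := by
  cases b <;> simp [sg]

private theorem idx_inj {n k : ℕ} (hk : k ≤ n) (σ : Equiv.Perm (Fin n)) :
    Function.Injective (fun a : Fin k => ((σ (Fin.castLE hk a) : Fin n) : ℕ)) := by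
  intro a b h
  have h1 : (σ (Fin.castLE hk a) : Fin n) = σ (Fin.castLE hk b) := Fin.ext h
  exact Fin.castLE_injective hk (σ.injective h1)

theorem norm_vec (he : Orthonormal ℝ e) {n k : ℕ} (hk : k ≤ n) (h0 : 0 < k) (σ : Equiv.Perm (Fin n)) (s : Fin n → Bool) :
    ‖vec e hk σ s‖ = 1 := by
  have ho : Orthonormal ℝ (fun a : Fin k => e ((σ (Fin.castLE hk a) : Fin n) : ℕ)) :=
    he.comp _ (idx_inj hk σ)
  have h1 := ho.inner_sum (fun a => sg (s (Fin.castLE hk a))) (fun a => sg (s (Fin.castLE hk a))) univ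
  have h2 : ‖∑ i : Fin k, sg (s (Fin.castLE hk i)) • e ((σ (Fin.castLE hk i) : Fin n) : ℕ)‖ ^ 2 = k := by
    rw [← real_inner_self_eq_norm_sq, h1]
    simp [sg_sq]
  have hk' : (0 : ℝ) < k := by exact_mod_cast h0
  have h3 : ‖vec e hk σ s‖ ^ 2 = 1 := by
    rw [vec, norm_smul, mul_pow, h2, norm_inv, inv_pow, Real.norm_eq_abs, sq_abs,
      Real.sq_sqrt hk'.le]
    field_simp
  have h4 := norm_nonneg (vec e hk σ s)
  nlinarith

theorem abs_inner_vec (he : Orthonormal ℝ e) {n k : ℕ} (hk : k ≤ n) (σ : Equiv.Perm (Fin n)) (s : Fin n → Bool) (i : ℕ) :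
    |inner ℝ (e i) (vec e hk σ s)| =
      if i ∈ univ.image (fun a : Fin k => ((σ (Fin.castLE hk a) : Fin n) : ℕ)) then (√(k : ℝ))⁻¹ else 0 := by
  have h1 : inner ℝ (e i) (vec e hk σ s) = (√(k : ℝ))⁻¹ * ∑ a : Fin k, sg (s (Fin.castLE hk a)) *
      (if i = ((σ (Fin.castLE hk a) : Fin n) : ℕ) then (1 : ℝ) else 0) := by
    rw [vec, inner_smul_right, inner_sum]
    congr 1
    refine Finset.sum_congr rfl fun a _ => ?_
    rw [inner_smul_right, orthonormal_iff_ite.1 he]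
  split_ifs with h
  · obtain ⟨a, -, ha⟩ := Finset.mem_image.1 h
    have h2 : ∑ b : Fin k, sg (s (Fin.castLE hk b)) *
      (if i = ((σ (Fin.castLE hk b) : Fin n) : ℕ) then (1 : ℝ) else 0) = sg (s (Fin.castLE hk a)) := by
      rw [Finset.sum_eq_single a]
      · rw [if_pos ha.symm, mul_one]
      · intro b _ hb
        rw [if_neg, mul_zero]
        intro hib
        exact hb (idx_inj hk σ (hib.symm.trans ha.symm))
      · intro ha'
        exact absurd (Finset.mem_univ a) ha'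
    rw [h1, h2, abs_mul, abs_sg, mul_one, abs_of_nonneg (inv_nonneg.2 (Real.sqrt_nonneg _))]
  · have h2 : ∑ b : Fin k, sg (s (Fin.castLE hk b)) *
      (if i = ((σ (Fin.castLE hk b) : Fin n) : ℕ) then (1 : ℝ) else 0) = 0 := by
      refine Finset.sum_eq_zero fun b _ => ?_
      rw [if_neg, mul_zero]
      intro hib
      exact h (Finset.mem_image.2 ⟨b, Finset.mem_univ _, hib.symm⟩)
    rw [h1, h2, mul_zero, abs_zero]

theorem card_T {n k : ℕ} (hk : k ≤ n) (σ : Equiv.Perm (Fin n)) :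
    (univ.image (fun a : Fin k => ((σ (Fin.castLE hk a) : Fin n) : ℕ))).card = k := by
  rw [Finset.card_image_of_injective _ (idx_inj hk σ), Finset.card_univ, Fintype.card_fin]

private theorem sum_abs (he : Orthonormal ℝ e) {n k : ℕ} (hk : k ≤ n) (σ : Equiv.Perm (Fin n))
    (s : Fin n → Bool) (S : Finset ℕ) :
    ∑ i ∈ S, |inner ℝ (e i) (vec e hk σ s)| =
      ((S ∩ univ.image (fun a : Fin k => ((σ (Fin.castLE hk a) : Fin n) : ℕ))).card : ℝ) *
        (√(k : ℝ))⁻¹ := by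
  rw [Finset.sum_congr rfl fun i _ => abs_inner_vec he hk σ s i, ← Finset.sum_filter,
    Finset.sum_const, nsmul_eq_mul, Finset.filter_mem_eq_inter]

theorem nn_two (he : Orthonormal ℝ e) {n i : ℕ} (hk : 256 ^ i ≤ n) (σ : Equiv.Perm (Fin n)) (s : Fin n → Bool) :
    nn e (vec e hk σ s) = 2 := by
  have hpos : 0 < 256 ^ i := by positivity
  have hn := norm_vec he hk hpos σ s
  refine le_antisymm ?_ ?_
  · have h1 := (nn_le he (vec e hk σ s)).2
    rw [hn] at h1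
    linarith
  · have hb : BddAbove (Set.range fun S : {S : Finset ℕ // ∃ j : ℕ, S.card = 256 ^ j} =>
        2 * (√(S.1.card : ℝ))⁻¹ * ∑ a ∈ S.1, |inner ℝ (e a) (vec e hk σ s)|) := by
      refine ⟨2 * ‖vec e hk σ s‖, ?_⟩
      rintro _ ⟨S, rfl⟩
      exact bdd he _ S
    have h2 := le_ciSup hb ⟨univ.image (fun a : Fin (256 ^ i) => ((σ (Fin.castLE hk a) : Fin n) : ℕ)),
      i, card_T hk σ⟩
    refine le_trans ?_ (h2.trans (le_max_right _ _))
    have hk' : (0 : ℝ) < ((256 ^ i : ℕ) : ℝ) := by exact_mod_cast hpos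
    have hs : √(((256 ^ i : ℕ) : ℝ)) ^ 2 = ((256 ^ i : ℕ) : ℝ) := Real.sq_sqrt hk'.le
    have hs0 : 0 < √(((256 ^ i : ℕ) : ℝ)) := Real.sqrt_pos.2 hk'
    show 2 ≤ 2 * (√(((univ.image (fun a : Fin (256 ^ i) => ((σ (Fin.castLE hk a) : Fin n) : ℕ))).card : ℕ) : ℝ))⁻¹ *
      ∑ a ∈ univ.image (fun a : Fin (256 ^ i) => ((σ (Fin.castLE hk a) : Fin n) : ℕ)),
        |inner ℝ (e a) (vec e hk σ s)|
    rw [sum_abs he hk σ s, Finset.inter_self, card_T hk σ]
    apply le_of_eq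
    rw [show 2 * (√(((256 ^ i : ℕ) : ℝ)))⁻¹ * (((256 ^ i : ℕ) : ℝ) * (√(((256 ^ i : ℕ) : ℝ)))⁻¹) =
      2 * (((256 ^ i : ℕ) : ℝ) * (√(((256 ^ i : ℕ) : ℝ)) ^ 2)⁻¹) by rw [sq, mul_inv]; ring, hs,
      mul_inv_cancel₀ hk'.ne', mul_one]

theorem nn_one (he : Orthonormal ℝ e) {n i : ℕ} (hk : 16 * 256 ^ i ≤ n) (σ : Equiv.Perm (Fin n)) (s : Fin n → Bool) :
    nn e (vec e hk σ s) = 1 := by
  have hpos : 0 < 16 * 256 ^ i := by positivity
  have hn := norm_vec he hk hpos σ s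
  have hk' : (0 : ℝ) < ((16 * 256 ^ i : ℕ) : ℝ) := by exact_mod_cast hpos
  obtain ⟨k, hkk⟩ : ∃ k : ℝ, k = ((16 * 256 ^ i : ℕ) : ℝ) := ⟨_, rfl⟩
  have hk0 : 0 < k := by rw [hkk]; exact hk'
  have hs : √k ^ 2 = k := Real.sq_sqrt hk0.le
  have hs0 : 0 < √k := Real.sqrt_pos.2 hk0
  have hne : Nonempty {S : Finset ℕ // ∃ j : ℕ, S.card = 256 ^ j} := ⟨⟨{0}, 0, by simp⟩⟩
  have hsup : (⨆ S : {S : Finset ℕ // ∃ j : ℕ, S.card = 256 ^ j},
      2 * (√(S.1.card : ℝ))⁻¹ * ∑ a ∈ S.1, |inner ℝ (e a) (vec e hk σ s)|) ≤ 1 := by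
    refine ciSup_le ?_
    rintro ⟨S, j, hj⟩
    show 2 * (√(S.card : ℝ))⁻¹ * ∑ a ∈ S, |inner ℝ (e a) (vec e hk σ s)| ≤ 1
    rw [sum_abs he hk σ s]
    have hS0 : (0 : ℝ) < (S.card : ℝ) := by
      rw [hj]
      positivity
    have ht : √(S.card : ℝ) ^ 2 = (S.card : ℝ) := Real.sq_sqrt hS0.le
    have ht0 : 0 < √(S.card : ℝ) := Real.sqrt_pos.2 hS0
    have hc1 : ((S ∩ univ.image (fun a : Fin (16 * 256 ^ i) =>
        ((σ (Fin.castLE hk a) : Fin n) : ℕ))).card : ℝ) ≤ (S.card : ℝ) := by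
      exact_mod_cast Finset.card_le_card Finset.inter_subset_left
    have hc2 : ((S ∩ univ.image (fun a : Fin (16 * 256 ^ i) =>
        ((σ (Fin.castLE hk a) : Fin n) : ℕ))).card : ℝ) ≤ k := by
      rw [hkk]
      have h1 := Finset.card_le_card (Finset.inter_subset_right (s₁ := S)
        (s₂ := univ.image (fun a : Fin (16 * 256 ^ i) => ((σ (Fin.castLE hk a) : Fin n) : ℕ))))
      rw [card_T hk σ] at h1
      exact_mod_cast h1
    generalize hcc : ((S ∩ univ.image (fun a : Fin (16 * 256 ^ i) =>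
        ((σ (Fin.castLE hk a) : Fin n) : ℕ))).card : ℝ) = c at hc1 hc2
    rw [← hkk]
    have hgoal : 2 * (√(S.card : ℝ))⁻¹ * (c * (√k)⁻¹) = 2 * c / (√(S.card : ℝ) * √k) := by
      field_simp
    rw [hgoal, div_le_one (by positivity)]
    rcases Nat.lt_or_ge i j with hij | hij
    · -- `16 k ≤ |S|`
      have h1 : 16 * k ≤ (S.card : ℝ) := by
        rw [hkk, hj]
        have h2 : 256 ^ (i + 1) ≤ 256 ^ j := Nat.pow_le_pow_right (by norm_num) hij
        have h3 : 16 * (16 * 256 ^ i) ≤ 256 ^ j := by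
          rw [pow_succ] at h2
          omega
        exact_mod_cast h3
      have h4 : 4 * √k ≤ √(S.card : ℝ) := by
        apply Real.le_sqrt_of_sq_le
        rw [mul_pow, hs]
        linarith
      nlinarith
    · have h1 : 16 * (S.card : ℝ) ≤ k := by
        rw [hkk, hj]
        have h2 : 256 ^ j ≤ 256 ^ i := Nat.pow_le_pow_right (by norm_num) hij
        have h3 : 16 * 256 ^ j ≤ 16 * 256 ^ i := by omega
        exact_mod_cast h3
      have h4 : 4 * √(S.card : ℝ) ≤ √k := by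
        apply Real.le_sqrt_of_sq_le
        rw [mul_pow, ht]
        linarith
      nlinarith
  rw [nn, hn]
  exact max_eq_left hsup

end Pool.Agent.Lib.MP_b414a3_an.PN
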