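import Pool.Agent.Lib.MP_b414a3_an.PN.NormA
import Pool.Agent.Lib.MP_b414a3_an.PN.Val

set_option autoImplicit false

namespace Pool.Agent.Lib.MP_b414a3_an.PN

open Finset

variable {H : Type*} [NormedAddCommGroup H] [InnerProductSpace ℝ H] {e : ℕ → H}

private theorem sum_absA (he : Orthonormal ℝ e) {n k : ℕ} (hk : k ≤ n) (σ : Equiv.Perm (Fin n))
    (s : Fin n → Bool) (S : Finset ℕ) :
    ∑ i ∈ S, |inner ℝ (e i) (vec e hk σ s)| =
      ((S ∩ univ.image (fun a : Fin k => ((σ (Fin.castLE hk a) : Fin n) : ℕ))).card : ℝ) *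
        (√(k : ℝ))⁻¹ := by
  rw [Finset.sum_congr rfl fun i _ => abs_inner_vec he hk σ s i, ← Finset.sum_filter,
    Finset.sum_const, nsmul_eq_mul, Finset.filter_mem_eq_inter]

private theorem q_pos {A : ℝ} (hA : 1 ≤ A) {q : ℕ} (hq : A ^ 2 ≤ q) : 0 < q := by
  have h1 : (1 : ℝ) ≤ q := by nlinarith
  have h2 : 1 ≤ q := by exact_mod_cast h1
  exact h2

theorem na_A (he : Orthonormal ℝ e) {A : ℝ} (hA : 1 ≤ A) {q : ℕ} (hq : A ^ 2 ≤ q) {n i : ℕ} (hk : q ^ (2 * i) ≤ n)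
    (σ : Equiv.Perm (Fin n)) (s : Fin n → Bool) : na A q e (vec e hk σ s) = A := by
  have hq0 := q_pos hA hq
  have hpos : 0 < q ^ (2 * i) := Nat.pow_pos hq0
  have hn := norm_vec he hk hpos σ s
  refine le_antisymm ?_ ?_
  · have h1 := (na_le he hA q (vec e hk σ s)).2
    rw [hn] at h1
    linarith
  · have hb : BddAbove (Set.range fun S : {S : Finset ℕ // ∃ j : ℕ, S.card = q ^ (2 * j)} =>
        A * (√(S.1.card : ℝ))⁻¹ * ∑ a ∈ S.1, |inner ℝ (e a) (vec e hk σ s)|) := by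
      refine ⟨A * ‖vec e hk σ s‖, ?_⟩
      rintro _ ⟨S, rfl⟩
      exact bddA he hA q _ S
    have h2 := le_ciSup hb ⟨univ.image (fun a : Fin (q ^ (2 * i)) => ((σ (Fin.castLE hk a) : Fin n) : ℕ)),
      i, card_T hk σ⟩
    refine le_trans ?_ (h2.trans (le_max_right _ _))
    have hk' : (0 : ℝ) < ((q ^ (2 * i) : ℕ) : ℝ) := by exact_mod_cast hpos
    have hs : √(((q ^ (2 * i) : ℕ) : ℝ)) ^ 2 = ((q ^ (2 * i) : ℕ) : ℝ) := Real.sq_sqrt hk'.le
    show A ≤ A * (√(((univ.image (fun a : Fin (q ^ (2 * i)) => ((σ (Fin.castLE hk a) : Fin n) : ℕ))).card : ℕ) : ℝ))⁻¹ *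
      ∑ a ∈ univ.image (fun a : Fin (q ^ (2 * i)) => ((σ (Fin.castLE hk a) : Fin n) : ℕ)),
        |inner ℝ (e a) (vec e hk σ s)|
    rw [sum_absA he hk σ s, Finset.inter_self, card_T hk σ]
    apply le_of_eq
    rw [show A * (√(((q ^ (2 * i) : ℕ) : ℝ)))⁻¹ * (((q ^ (2 * i) : ℕ) : ℝ) * (√(((q ^ (2 * i) : ℕ) : ℝ)))⁻¹) =
      A * (((q ^ (2 * i) : ℕ) : ℝ) * (√(((q ^ (2 * i) : ℕ) : ℝ)) ^ 2)⁻¹) by rw [sq, mul_inv]; ring, hs,
      mul_inv_cancel₀ hk'.ne', mul_one]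

theorem na_one (he : Orthonormal ℝ e) {A : ℝ} (hA : 1 ≤ A) {q : ℕ} (hq : A ^ 2 ≤ q) {n i : ℕ}
    (hk : q ^ (2 * i + 1) ≤ n) (σ : Equiv.Perm (Fin n)) (s : Fin n → Bool) : na A q e (vec e hk σ s) = 1 := by
  have hq0 := q_pos hA hq
  have hA0 : 0 < A := by linarith
  have hpos : 0 < q ^ (2 * i + 1) := Nat.pow_pos hq0
  have hn := norm_vec he hk hpos σ s
  have hk' : (0 : ℝ) < ((q ^ (2 * i + 1) : ℕ) : ℝ) := by exact_mod_cast hpos
  obtain ⟨k, hkk⟩ : ∃ k : ℝ, k = ((q ^ (2 * i + 1) : ℕ) : ℝ) := ⟨_, rfl⟩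
  have hk0 : 0 < k := by rw [hkk]; exact hk'
  have hs : √k ^ 2 = k := Real.sq_sqrt hk0.le
  have hs0 : 0 < √k := Real.sqrt_pos.2 hk0
  have hne : Nonempty {S : Finset ℕ // ∃ j : ℕ, S.card = q ^ (2 * j)} := ⟨⟨{0}, 0, by simp⟩⟩
  have hsup : (⨆ S : {S : Finset ℕ // ∃ j : ℕ, S.card = q ^ (2 * j)},
      A * (√(S.1.card : ℝ))⁻¹ * ∑ a ∈ S.1, |inner ℝ (e a) (vec e hk σ s)|) ≤ 1 := by
    refine ciSup_le ?_
    rintro ⟨S, j, hj⟩
    show A * (√(S.card : ℝ))⁻¹ * ∑ a ∈ S, |inner ℝ (e a) (vec e hk σ s)| ≤ 1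
    rw [sum_absA he hk σ s]
    have hS0 : (0 : ℝ) < (S.card : ℝ) := by
      rw [hj]
      exact_mod_cast Nat.pow_pos hq0
    have ht : √(S.card : ℝ) ^ 2 = (S.card : ℝ) := Real.sq_sqrt hS0.le
    have ht0 : 0 < √(S.card : ℝ) := Real.sqrt_pos.2 hS0
    have hc1 : ((S ∩ univ.image (fun a : Fin (q ^ (2 * i + 1)) =>
        ((σ (Fin.castLE hk a) : Fin n) : ℕ))).card : ℝ) ≤ (S.card : ℝ) := by
      exact_mod_cast Finset.card_le_card Finset.inter_subset_left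
    have hc2 : ((S ∩ univ.image (fun a : Fin (q ^ (2 * i + 1)) =>
        ((σ (Fin.castLE hk a) : Fin n) : ℕ))).card : ℝ) ≤ k := by
      rw [hkk]
      have h1 := Finset.card_le_card (Finset.inter_subset_right (s₁ := S)
        (s₂ := univ.image (fun a : Fin (q ^ (2 * i + 1)) => ((σ (Fin.castLE hk a) : Fin n) : ℕ))))
      rw [card_T hk σ] at h1
      exact_mod_cast h1
    generalize hcc : ((S ∩ univ.image (fun a : Fin (q ^ (2 * i + 1)) =>
        ((σ (Fin.castLE hk a) : Fin n) : ℕ))).card : ℝ) = c at hc1 hc2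
    rw [← hkk]
    have hgoal : A * (√(S.card : ℝ))⁻¹ * (c * (√k)⁻¹) = A * c / (√(S.card : ℝ) * √k) := by
      field_simp
    rw [hgoal, div_le_one (by positivity)]
    rcases Nat.lt_or_ge i j with hij | hij
    · -- `A² k ≤ |S|`
      have h1 : (q : ℝ) * k ≤ (S.card : ℝ) := by
        rw [hkk, hj]
        have h2 : q * q ^ (2 * i + 1) ≤ q ^ (2 * j) := by
          rw [← pow_succ']
          exact Nat.pow_le_pow_right hq0 (by omega)
        exact_mod_cast h2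
      have h4 : A * √k ≤ √(S.card : ℝ) := by
        apply Real.le_sqrt_of_sq_le
        rw [mul_pow, hs]
        exact (mul_le_mul_of_nonneg_right hq hk0.le).trans h1
      calc A * c ≤ A * k := mul_le_mul_of_nonneg_left hc2 hA0.le
        _ = (A * √k) * √k := by rw [mul_assoc, ← sq, hs]
        _ ≤ √(S.card : ℝ) * √k := mul_le_mul_of_nonneg_right h4 hs0.le
    · have h1 : (q : ℝ) * (S.card : ℝ) ≤ k := by
        rw [hkk, hj]
        have h2 : q * q ^ (2 * j) ≤ q ^ (2 * i + 1) := by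
          rw [← pow_succ']
          exact Nat.pow_le_pow_right hq0 (by omega)
        exact_mod_cast h2
      have h4 : A * √(S.card : ℝ) ≤ √k := by
        apply Real.le_sqrt_of_sq_le
        rw [mul_pow, ht]
        exact (mul_le_mul_of_nonneg_right hq hS0.le).trans h1
      calc A * c ≤ A * (S.card : ℝ) := mul_le_mul_of_nonneg_left hc1 hA0.le
        _ = √(S.card : ℝ) * (A * √(S.card : ℝ)) := by rw [mul_left_comm, ← sq, ht]
        _ ≤ √(S.card : ℝ) * √k := mul_le_mul_of_nonneg_left h4 ht0.le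
  rw [na, hn]
  exact max_eq_left hsup

end Pool.Agent.Lib.MP_b414a3_an.PN
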